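import Mathlib
import Pool.Agent.Tron.Defs
import Pool.Agent.Tron.Main

set_option autoImplicit false

namespace Pool.Agent.Results.MP_e2c3f0_co.TronCycle

open Pool.Agent.Tron

/-- There is a weighted cycle with 100 vertices on which the value of Weighted Tron is at least
`5/21`, hence larger than `1/5`. -/
theorem result :
    ∃ w : Fin 100 → ℝ, (∀ i, 0 ≤ w i) ∧ ∑ i, w i = 1 ∧
      1 / 5 < value (SimpleGraph.cycleGraph 100) w ∧
      5 / 21 ≤ value (SimpleGraph.cycleGraph 100) w :=
  main

end Pool.Agent.Results.MP_e2c3f0_co.TronCycle
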